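import Pool.Agent.Helper62_GB.Stmt
import Pool.Agent.Helper61_Fine.Alg
import Pool.Agent.Helper10_Fine.Core
import Pool.Agent.Helper16_Fine.Part1

/-!
Squad GB, modules LSUB, TANB, ZB, SHORT: sides of circumscribed polygons.
-/

namespace Pool.Agent.GB.H11

open MeasureTheory Complex Filter Topology ProbabilityTheory Pool.Agent.H16Iso Pool.Agent.H62T
open Pool.Agent.H16F
open scoped ENNReal NNReal

variable {n : ℕ} [NeZero n] {u : Fin n → ℂ} {β : Fin n → ℝ}

lemma sublin_zero {h : ℂ → ℝ} (hs : Sublin h) : h 0 = 0 := by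
  have := hs.2 0 0 le_rfl
  simpa using this

/-- relation between three consecutive normals -/
lemma three (hN : Nm u β) (i : Fin n) :
    (Real.sin (β i) : ℂ) * u (i - 1) + (Real.sin (β (i - 1)) : ℂ) * u (i + 1)
      = (Real.sin (β (i - 1) + β i) : ℂ) * u i := by
  have h1 : u i = u (i - 1) * Complex.exp (β (i - 1) * I) := by
    have := hN.step (i - 1)
    rwa [sub_add_cancel] at this
  have h2 := hN.step i
  have h3 : u (i - 1) = u i * Complex.exp (((-β (i - 1) : ℝ) : ℂ) * I) := by
    rw [h1, mul_assoc, ← Complex.exp_add]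
    push_cast
    rw [neg_mul, add_neg_cancel, Complex.exp_zero, mul_one]
  rw [h2, h3, H61.exp_eq, H61.exp_eq, Real.cos_neg, Real.sin_neg, Real.sin_add]
  push_cast
  ring

lemma len_mul (hN : Nm u β) (b : Fin n → ℝ) (i : Fin n) :
    len β b i * (Real.sin (β (i - 1)) * Real.sin (β i))
      = Real.sin (β i) * b (i - 1) + Real.sin (β (i - 1)) * b (i + 1)
        - Real.sin (β (i - 1) + β i) * b i := by
  have h1 := (H61.sin_pos hN (i - 1)).ne'
  have h2 := (H61.sin_pos hN i).ne'
  unfold len
  rw [Real.sin_add]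
  field_simp
  ring

/-- LSUB -/
theorem lsub : LsubStatement := by
  intro n _ u β hN h hs i
  have h1 := H61.sin_pos hN (i - 1)
  have h2 := H61.sin_pos hN i
  have key : 0 ≤ len β (fun j => h (u j)) i * (Real.sin (β (i - 1)) * Real.sin (β i)) := by
    rw [len_mul hN]
    have h3 := three hN i
    have ha : h ((Real.sin (β i) : ℂ) * u (i - 1)) = Real.sin (β i) * h (u (i - 1)) :=
      hs.2 _ _ h2.le
    have hb : h ((Real.sin (β (i - 1)) : ℂ) * u (i + 1)) = Real.sin (β (i - 1)) * h (u (i + 1)) :=
      hs.2 _ _ h1.le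
    have hab := hs.1 ((Real.sin (β i) : ℂ) * u (i - 1)) ((Real.sin (β (i - 1)) : ℂ) * u (i + 1))
    rw [h3, ha, hb] at hab
    rcases le_total 0 (Real.sin (β (i - 1) + β i)) with hc | hc
    · rw [hs.2 _ _ hc] at hab
      linarith
    · have h4 := hs.2 (-Real.sin (β (i - 1) + β i)) (u i) (by linarith)
      have h5 := hs.1 ((Real.sin (β (i - 1) + β i) : ℂ) * u i)
        (((-Real.sin (β (i - 1) + β i) : ℝ) : ℂ) * u i)
      have h6 : (Real.sin (β (i - 1) + β i) : ℂ) * u i
          + (((-Real.sin (β (i - 1) + β i) : ℝ) : ℂ) * u i) = 0 := by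
        push_cast; ring
      rw [h6, sublin_zero hs, h4] at h5
      linarith
  have h3 : 0 < Real.sin (β (i - 1)) * Real.sin (β i) := mul_pos h1 h2
  by_contra hc
  push Not at hc
  nlinarith [mul_neg_of_neg_of_pos hc h3]

/-- TANB -/
theorem tanb : TanbStatement := by
  intro B hB
  by_cases hB0 : 0 < B
  · have hc : 0 < Real.cos (B / 2) := Real.cos_pos_of_mem_Ioo ⟨by linarith, by linarith⟩
    refine ⟨2 * Real.pi / Real.cos (B / 2), by positivity, ?_⟩
    intro n _ u β hN hb
    have h1 : ∀ i, Real.tan (β i / 2) ≤ β i / 2 / Real.cos (B / 2) := by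
      intro i
      have h0 := hN.pos i
      have h2 := hb i
      have hc2 : Real.cos (B / 2) ≤ Real.cos (β i / 2) :=
        Real.cos_le_cos_of_nonneg_of_le_pi (by linarith) (by linarith) (by linarith)
      have hs : Real.sin (β i / 2) ≤ β i / 2 := (Real.sin_lt (by linarith)).le
      rw [Real.tan_eq_sin_div_cos]
      exact div_le_div₀ (by linarith) hs hc hc2
    have h2 : ∑ i, (Real.tan (β (i - 1) / 2) + Real.tan (β i / 2))
        = 2 * ∑ i, Real.tan (β i / 2) := by
      rw [Finset.sum_add_distrib, H61.sum_pred (fun i => Real.tan (β i / 2))]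
      ring
    have h3 : ∑ i, Real.tan (β i / 2) ≤ Real.pi / Real.cos (B / 2) := by
      calc ∑ i, Real.tan (β i / 2) ≤ ∑ i, β i / 2 / Real.cos (B / 2) :=
            Finset.sum_le_sum fun i _ => h1 i
        _ = (∑ i, β i) / 2 / Real.cos (B / 2) := by
            rw [Finset.sum_div, Finset.sum_div]
        _ = Real.pi / Real.cos (B / 2) := by rw [hN.sum]; ring
    rw [h2]
    calc 2 * ∑ i, Real.tan (β i / 2) ≤ 2 * (Real.pi / Real.cos (B / 2)) := by linarith
      _ = 2 * Real.pi / Real.cos (B / 2) := by ring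
  · refine ⟨1, one_pos, ?_⟩
    intro n _ u β hN hb
    have h0 := hN.pos 0
    have h1 := hb 0
    linarith

/-- ZB -/
theorem zb : ZbStatement := by
  intro n _ u β hN b hb
  set e : ℕ → ℝ := fun k => 1 / ((k : ℝ) + 1) with he
  have he0 : ∀ k, 0 < e k := fun k => by simp only [he]; positivity
  have het : Tendsto e atTop (𝓝 0) := tendsto_one_div_add_atTop_nhds_zero_nat
  have htan : ∀ i, 0 < Real.tan (β i / 2) := fun i =>
    Real.tan_pos_of_pos_of_lt_pi_div_two (by linarith [hN.pos i]) (by linarith [hN.lt i])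
  have hl : ∀ (s : ℝ), 0 < s → ∀ i, 0 < len β (fun j => b j + s) i := by
    intro s hs i
    have h1 : len β (fun j => b j + s) i = len β b i
        + s * (Real.tan (β (i - 1) / 2) + Real.tan (β i / 2)) := by
      unfold len
      rw [← H61.half_tan (hN.pos (i - 1)) (hN.lt (i - 1)), ← H61.half_tan (hN.pos i) (hN.lt i)]
      ring
    rw [h1]
    have := hb i
    have h2 := htan i
    have h3 := htan (i - 1)
    positivity
  have hA : ∀ s : ℝ, 0 < s → Ar u (fun j => b j + s) = qa β (fun j => b j + s) := fun s hs =>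
    H10.area_eq H61.run H61.zero hN (hl s hs)
  have hq : Tendsto (fun k => qa β (fun j => b j + e k)) atTop (𝓝 (qa β b)) := by
    have hc : Continuous fun s : ℝ => qa β (fun j => b j + s) := by
      unfold qa q
      fun_prop
    have h1 := (hc.tendsto 0).comp het
    simp only [add_zero] at h1
    exact h1
  have hm : Tendsto (fun k => Ar u (fun j => b j + e k)) atTop (𝓝 (Ar u b)) := by
    unfold Ar
    have hset : {x : ℂ | ∀ i, ip (u i) x ≤ b i}
        = ⋂ k, {x : ℂ | ∀ i, ip (u i) x ≤ b i + e k} := by
      ext x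
      simp only [Set.mem_iInter]
      constructor
      · intro hx k i
        have := hx i
        have := he0 k
        linarith
      · intro hx i
        have h1 : Tendsto (fun k => b i + e k) atTop (𝓝 (b i + 0)) := het.const_add _
        rw [add_zero] at h1
        exact ge_of_tendsto h1 (Eventually.of_forall fun k => hx k i)
    have hcip : ∀ a : ℂ, Continuous fun x => ip a x := by
      intro a
      unfold ip
      fun_prop
    have hmeas : ∀ k, MeasurableSet {x : ℂ | ∀ i, ip (u i) x ≤ b i + e k} := by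
      intro k
      have : {x : ℂ | ∀ i, ip (u i) x ≤ b i + e k} = ⋂ i, {x : ℂ | ip (u i) x ≤ b i + e k} := by
        ext x; simp
      rw [this]
      exact MeasurableSet.iInter fun i =>
        (isClosed_le (hcip _) continuous_const).measurableSet
    have hanti : Antitone fun k => {x : ℂ | ∀ i, ip (u i) x ≤ b i + e k} := by
      intro k l hkl x hx i
      have h1 : e l ≤ e k := by
        simp only [he]
        apply one_div_le_one_div_of_le (by positivity)
        have : (k : ℝ) ≤ l := by exact_mod_cast hkl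
        linarith
      have := hx i
      show ip (u i) x ≤ b i + e k
      linarith
    have hfin : volume {x : ℂ | ∀ i, ip (u i) x ≤ b i + e 0} ≠ ∞ := by
      have hcp : CP u (fun j => b j + 2) β := ⟨hN, hl 2 two_pos⟩
      have hbd := (H69.vert n u _ β hcp).2.1
      have hsub : {x : ℂ | ∀ i, ip (u i) x ≤ b i + e 0} ⊆ Poly u (fun j => b j + 2) := by
        intro x hx i
        have := hx i
        have h1 : e 0 = 1 := by simp [he]
        rw [h1] at this
        linarith
      exact ((measure_mono hsub).trans_lt hbd.measure_lt_top).ne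
    rw [hset]
    have h2 := tendsto_measure_iInter_atTop (μ := volume) (fun k => (hmeas k).nullMeasurableSet)
      hanti ⟨0, hfin⟩
    refine (ENNReal.tendsto_toReal ?_).comp h2
    exact ((measure_mono (Set.iInter_subset _ 0)).trans_lt (lt_top_iff_ne_top.2 hfin)).ne
  have h3 : (fun k => Ar u (fun j => b j + e k)) = fun k => qa β (fun j => b j + e k) := by
    funext k
    exact hA _ (he0 k)
  rw [h3] at hm
  exact tendsto_nhds_unique hm hq

/-- SHORT -/
theorem short : ShortStatement := by
  intro n _ u H β hP hn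
  classical
  have hN : Nm u β := hP.toNm
  have hpi := Real.pi_pos
  set Bad : Finset (Fin n) := Finset.univ.filter fun i => Real.pi / 2 ≤ β i with hBad
  have hcard : Bad.card ≤ 4 := by
    by_contra hc
    push Not at hc
    have h1 : (Bad.card : ℝ) * (Real.pi / 2) ≤ ∑ i ∈ Bad, β i := by
      have := Finset.card_nsmul_le_sum Bad β (Real.pi / 2) (fun i hi => (Finset.mem_filter.1 hi).2)
      simpa [nsmul_eq_mul] using this
    have h2 : ∑ i ∈ Bad, β i ≤ ∑ i, β i :=
      Finset.sum_le_sum_of_subset_of_nonneg (Finset.subset_univ _) fun i _ _ => (hN.pos i).le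
    rw [hN.sum] at h2
    have h3 : (5 : ℝ) ≤ Bad.card := by exact_mod_cast hc
    nlinarith
  set Good : Finset (Fin n) := Finset.univ.filter fun j =>
    β (j - 1) < Real.pi / 2 ∧ β j < Real.pi / 2 with hGood
  have hcomp : Goodᶜ ⊆ Bad ∪ Bad.image (fun i => i + 1) := by
    intro j hj
    rw [Finset.mem_compl, hGood, Finset.mem_filter, not_and] at hj
    have hj' := hj (Finset.mem_univ _)
    rw [not_and_or, not_lt, not_lt] at hj'
    rw [Finset.mem_union, Finset.mem_image]
    rcases hj' with h | h
    · right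
      exact ⟨j - 1, by simp [hBad, h], sub_add_cancel _ _⟩
    · left
      simp [hBad, h]
  have hgc : n ≤ Good.card + 8 := by
    have h1 : (Goodᶜ).card ≤ 8 := by
      calc (Goodᶜ).card ≤ (Bad ∪ Bad.image (fun i => i + 1)).card := Finset.card_le_card hcomp
        _ ≤ Bad.card + (Bad.image (fun i => i + 1)).card := Finset.card_union_le _ _
        _ ≤ Bad.card + Bad.card := Nat.add_le_add_left Finset.card_image_le _
        _ ≤ 8 := by omega
    have h2 := Finset.card_add_card_compl Good
    rw [Fintype.card_fin] at h2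
    omega
  have hne : Good.Nonempty := by
    rw [← Finset.card_pos]
    omega
  obtain ⟨j, hj, hmin⟩ := Finset.exists_min_image Good (len β H) hne
  have hj' := (Finset.mem_filter.1 hj).2
  refine ⟨j, hj'.1, hj'.2, ?_⟩
  have h1 : (Good.card : ℝ) * len β H j ≤ ∑ i ∈ Good, len β H i := by
    have := Finset.card_nsmul_le_sum Good (len β H) (len β H j) hmin
    simpa [nsmul_eq_mul] using this
  have h2 : ∑ i ∈ Good, len β H i ≤ ∑ i, len β H i :=
    Finset.sum_le_sum_of_subset_of_nonneg (Finset.subset_univ _) fun i _ _ => (hP.side i).le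
  have h3 : (n : ℝ) - 8 ≤ Good.card := by
    have : (n : ℝ) ≤ Good.card + 8 := by exact_mod_cast hgc
    linarith
  have h4 := hP.side j
  nlinarith [mul_le_mul_of_nonneg_left h3 h4.le]

end Pool.Agent.GB.H11
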