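import Pool.Agent.Helper11_GB.Small

/-!
Squad GB, module SORT: finitely many directions of strict sublinearity form a circumscribed
polygon.
-/

namespace Pool.Agent.GB.H11

open MeasureTheory Complex Filter Topology ProbabilityTheory Pool.Agent.H16Iso Pool.Agent.H62T
open Pool.Agent.H16F
open scoped ENNReal NNReal

/-- the exterior angles of sorted directions -/
noncomputable def gap {k : ℕ} (θ : Fin (k + 1) → ℝ) (i : Fin (k + 1)) : ℝ :=
  θ (i + 1) - θ i + if (i : ℕ) + 1 < k + 1 then 0 else 2 * Real.pi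

lemma val_succ {k : ℕ} {i : Fin (k + 1)} (h : (i : ℕ) + 1 < k + 1) :
    ((i + 1 : Fin (k + 1)) : ℕ) = (i : ℕ) + 1 := by
  rw [Fin.val_add_one_of_lt']
  exact h

lemma last_succ {k : ℕ} {i : Fin (k + 1)} (h : ¬ (i : ℕ) + 1 < k + 1) :
    i = Fin.last k ∧ (i + 1 : Fin (k + 1)) = 0 := by
  have h1 : i = Fin.last k := by
    apply Fin.ext
    have := i.2
    simp only [Fin.val_last]
    omega
  exact ⟨h1, by rw [h1]; exact Fin.last_add_one k⟩

variable {k : ℕ} {θ : Fin (k + 1) → ℝ}

lemma gap_pos (hm : StrictMono θ) (hl : ∀ i, -Real.pi < θ i) (hu : ∀ i, θ i ≤ Real.pi)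
    (i : Fin (k + 1)) : 0 < gap θ i := by
  unfold gap
  by_cases h : (i : ℕ) + 1 < k + 1
  · rw [if_pos h]
    have h1 : i < i + 1 := by
      rw [Fin.lt_def, val_succ h]
      omega
    have := hm h1
    linarith
  · rw [if_neg h, (last_succ h).2]
    have := hl 0
    have := hu i
    linarith

lemma gap_sum : ∑ i, gap θ i = 2 * Real.pi := by
  unfold gap
  rw [Finset.sum_add_distrib, Finset.sum_sub_distrib, H61.sum_succ θ, sub_self, zero_add,
    Fin.sum_univ_castSucc]
  simp

/-- all directions are outside the gap -/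
lemma gap_mem (hm : StrictMono θ) (hl : ∀ i, -Real.pi < θ i) (hu : ∀ i, θ i ≤ Real.pi)
    (i j : Fin (k + 1)) : ∃ c : ℝ, (c = 0 ∨ c = 2 * Real.pi) ∧ θ i + gap θ i ≤ θ j + c ∧
      θ j + c ≤ θ i + 2 * Real.pi := by
  have hpi := Real.pi_pos
  by_cases h : (i : ℕ) + 1 < k + 1
  · have h2 : θ i + gap θ i = θ (i + 1) := by
      unfold gap
      rw [if_pos h]
      ring
    rw [h2]
    rcases lt_or_ge i j with hij | hij
    · refine ⟨0, Or.inl rfl, ?_, ?_⟩
      · rw [add_zero]
        apply hm.monotone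
        rw [Fin.le_def, val_succ h]
        exact hij
      · have := hu j
        have := hl i
        linarith
    · refine ⟨2 * Real.pi, Or.inr rfl, ?_, ?_⟩
      · have := hu (i + 1)
        have := hl j
        linarith
      · have := hm.monotone hij
        linarith
  · refine ⟨2 * Real.pi, Or.inr rfl, ?_, ?_⟩
    · have h2 : θ i + gap θ i = θ 0 + 2 * Real.pi := by
        unfold gap
        rw [if_neg h, (last_succ h).2]
        ring
      rw [h2]
      have := hm.monotone (Fin.zero_le j)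
      linarith
    · have h3 : j ≤ i := by
        rw [(last_succ h).1]
        exact Fin.le_last j
      have := hm.monotone h3
      linarith

lemma ip_exp_exp (a b : ℝ) : ip (Complex.exp (a * I)) (Complex.exp (b * I)) = Real.cos (a - b) := by
  rw [H61.exp_eq, H61.exp_eq, Real.cos_sub]
  unfold ip
  simp [Complex.cos_ofReal_re, Complex.sin_ofReal_re]

/-- a gap of at least `π` gives an unbounded set -/
lemma gap_lt (hm : StrictMono θ) (hl : ∀ i, -Real.pi < θ i) (hu : ∀ i, θ i ≤ Real.pi)
    {h : ℂ → ℝ} (hh : ∀ u, u ≠ 0 → 0 < h u)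
    (hb : Bornology.IsBounded {x : ℂ | ∀ i, ip (Complex.exp (θ i * I)) x
      ≤ h (Complex.exp (θ i * I))}) (i : Fin (k + 1)) : gap θ i < Real.pi := by
  by_contra hc
  push Not at hc
  set w : ℂ := Complex.exp (((θ i + gap θ i / 2 : ℝ) : ℂ) * I) with hw
  have hwn : ‖w‖ = 1 := Complex.norm_exp_ofReal_mul_I _
  have h1 : ∀ j, ip (Complex.exp (θ j * I)) w ≤ 0 := by
    intro j
    rw [hw, ip_exp_exp]
    obtain ⟨c, hc0, hc1, hc2⟩ := gap_mem hm hl hu i j
    have h2 : Real.cos (θ j - (θ i + gap θ i / 2)) = Real.cos (θ j + c - (θ i + gap θ i / 2)) := by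
      rcases hc0 with h | h
      · rw [h, add_zero]
      · rw [h]
        have : θ j + 2 * Real.pi - (θ i + gap θ i / 2)
            = θ j - (θ i + gap θ i / 2) + 2 * Real.pi := by ring
        rw [this, Real.cos_add_two_pi]
    rw [h2]
    apply Real.cos_nonpos_of_pi_div_two_le_of_le
    · linarith
    · linarith
  obtain ⟨R, hR⟩ := hb.subset_closedBall 0
  have h3 : (((|R| + 1 : ℝ) : ℂ) * w) ∈ {x : ℂ | ∀ i, ip (Complex.exp (θ i * I)) x
      ≤ h (Complex.exp (θ i * I))} := by
    intro j
    show ip (Complex.exp (θ j * I)) (((|R| + 1 : ℝ) : ℂ) * w) ≤ h (Complex.exp (θ j * I))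
    rw [H61.ip_smul']
    have h4 := h1 j
    have h5 := hh _ (Complex.exp_ne_zero (θ j * I))
    have h6 : 0 ≤ |R| + 1 := by positivity
    nlinarith [mul_nonneg h6 (neg_nonneg.2 h4)]
  have h4 := hR h3
  rw [mem_closedBall_zero_iff, norm_mul, hwn, mul_one, Complex.norm_real] at h4
  have h5 : ‖|R| + 1‖ = |R| + 1 := Real.norm_of_nonneg (by positivity)
  rw [h5] at h4
  have := le_abs_self R
  linarith

lemma dt_smul (a b : ℂ) (r : ℝ) : dt a ((r : ℂ) * b) = r * dt a b := by
  unfold dt; simp; ring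

lemma dt_exp {a : ℂ} (ha : ‖a‖ = 1) (t : ℝ) : dt a (a * Complex.exp (t * I)) = Real.sin t := by
  have hu2 : a.re ^ 2 + a.im ^ 2 = 1 := by
    have := Complex.sq_norm a
    rw [ha, Complex.normSq_apply] at this
    nlinarith
  rw [H61.exp_eq]
  unfold dt
  simp [Complex.cos_ofReal_re, Complex.sin_ofReal_re]
  linear_combination (Real.sin t) * hu2

/-- the sides of the circumscribed polygon are positive -/
lemma side_pos {n : ℕ} [NeZero n] {u : Fin n → ℂ} {β : Fin n → ℝ} (hN : Nm u β) {h : ℂ → ℝ}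
    (hh : SF h) (hS : ∀ i, u i ∈ SS h) (i : Fin n) : 0 < len β (fun j => h (u j)) i := by
  have h1 := H61.sin_pos hN (i - 1)
  have h2 := H61.sin_pos hN i
  have hu0 : ∀ j, u j ≠ 0 := by
    intro j hj
    have := hN.unit j
    rw [hj, norm_zero] at this
    exact zero_ne_one this
  have key : 0 < len β (fun j => h (u j)) i * (Real.sin (β (i - 1)) * Real.sin (β i)) := by
    rw [len_mul hN]
    have h3 := three hN i
    have p1 := hh.pos _ (hu0 (i - 1))
    have p2 := hh.pos _ (hu0 (i + 1))
    have p3 := hh.pos _ (hu0 i)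
    rcases lt_or_ge 0 (Real.sin (β (i - 1) + β i)) with hc | hc
    · set s := Real.sin (β (i - 1) + β i) with hs
      have h4 := (hS i).2 (((Real.sin (β i) / s : ℝ) : ℂ) * u (i - 1)) (by
        have e1 : u (i - 1) = u i * Complex.exp (((-β (i - 1) : ℝ) : ℂ) * I) := by
          have h1 : u i = u (i - 1) * Complex.exp (β (i - 1) * I) := by
            have := hN.step (i - 1)
            rwa [sub_add_cancel] at this
          rw [h1, mul_assoc, ← Complex.exp_add]
          push_cast
          rw [neg_mul, add_neg_cancel, Complex.exp_zero, mul_one]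
        rw [dt_smul, e1, dt_exp (hN.unit i), Real.sin_neg]
        have : 0 < Real.sin (β i) / s := div_pos h2 hc
        have h5 := mul_pos this h1
        nlinarith)
      have h5 : u i - ((Real.sin (β i) / s : ℝ) : ℂ) * u (i - 1)
          = ((Real.sin (β (i - 1)) / s : ℝ) : ℂ) * u (i + 1) := by
        have hs0 : (s : ℂ) ≠ 0 := by exact_mod_cast hc.ne'
        push_cast
        field_simp
        push_cast at h3
        linear_combination -h3
      rw [h5, hh.sub.2 _ _ (div_pos h2 hc).le, hh.sub.2 _ _ (div_pos h1 hc).le] at h4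
      have h6 : s * h (u i) < Real.sin (β i) * h (u (i - 1))
          + Real.sin (β (i - 1)) * h (u (i + 1)) := by
        have := mul_lt_mul_of_pos_left h4 hc
        have e : s * (Real.sin (β i) / s * h (u (i - 1)) + Real.sin (β (i - 1)) / s * h (u (i + 1)))
            = Real.sin (β i) * h (u (i - 1)) + Real.sin (β (i - 1)) * h (u (i + 1)) := by
          field_simp
        linarith
      linarith
    · have q1 := mul_pos h2 p1
      have q2 := mul_pos h1 p2
      have q3 : 0 ≤ -(Real.sin (β (i - 1) + β i) * h (u i)) := by nlinarith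
      linarith
  by_contra hc
  push Not at hc
  have := mul_nonneg (neg_nonneg.2 hc) (mul_pos h1 h2).le
  linarith

/-- SORT -/
theorem sort : SortStatement := by
  intro h hh N hN hbd
  classical
  have hu1 : ∀ z ∈ N, ‖z‖ = 1 := fun z hz => (hN z hz).1
  have hexp : ∀ z ∈ N, Complex.exp (Complex.arg z * I) = z := by
    intro z hz
    have := Complex.norm_mul_exp_arg_mul_I z
    rw [hu1 z hz] at this
    simpa using this
  set S : Finset ℝ := N.image Complex.arg with hS
  have hNne : N.Nonempty := by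
    by_contra hne
    rw [Finset.not_nonempty_iff_eq_empty] at hne
    rw [hne] at hbd
    have : {x : ℂ | ∀ u ∈ (∅ : Finset ℂ), ip u x ≤ h u} = Set.univ := by
      ext x; simp
    rw [this] at hbd
    exact NormedSpace.unbounded_univ ℝ ℂ hbd
  have hSne : S.Nonempty := hNne.image _
  obtain ⟨k, hk⟩ : ∃ k, S.card = k + 1 := ⟨S.card - 1, by
    have := Finset.card_pos.2 hSne
    omega⟩
  set θ : Fin (k + 1) → ℝ := fun i => S.orderEmbOfFin hk i with hθ
  have hm : StrictMono θ := fun i j hij => (S.orderEmbOfFin hk).strictMono hij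
  have hran : ∀ i, θ i ∈ S := fun i => Finset.orderEmbOfFin_mem S hk i
  have hran2 : ∀ s ∈ S, ∃ i, θ i = s := by
    intro s hs
    have := Finset.range_orderEmbOfFin S hk
    have h2 : s ∈ Set.range (S.orderEmbOfFin hk) := by rw [this]; exact hs
    exact h2
  have harg : ∀ i, ∃ z ∈ N, Complex.arg z = θ i := fun i => Finset.mem_image.1 (hran i)
  have hl : ∀ i, -Real.pi < θ i := fun i => by
    obtain ⟨z, -, hz⟩ := harg i
    rw [← hz]; exact Complex.neg_pi_lt_arg z
  have hu : ∀ i, θ i ≤ Real.pi := fun i => by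
    obtain ⟨z, -, hz⟩ := harg i
    rw [← hz]; exact Complex.arg_le_pi z
  set u : Fin (k + 1) → ℂ := fun i => Complex.exp (θ i * I) with hu_def
  have huN : ∀ i, u i ∈ N ∧ Complex.arg (u i) = θ i := by
    intro i
    obtain ⟨z, hz, hzt⟩ := harg i
    have : u i = z := by
      simp only [hu_def]
      rw [← hzt]
      exact hexp z hz
    rw [this]
    exact ⟨hz, hzt⟩
  have hmem : ∀ z, z ∈ N ↔ ∃ i, u i = z := by
    intro z
    constructor
    · intro hz
      obtain ⟨i, hi⟩ := hran2 _ (Finset.mem_image_of_mem Complex.arg hz)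
      refine ⟨i, ?_⟩
      simp only [hu_def]
      rw [hi]
      exact hexp z hz
    · rintro ⟨i, rfl⟩
      exact (huN i).1
  have hb : Bornology.IsBounded {x : ℂ | ∀ i, ip (Complex.exp (θ i * I)) x
      ≤ h (Complex.exp (θ i * I))} := by
    refine hbd.subset ?_
    intro x hx v hv
    obtain ⟨i, rfl⟩ := (hmem v).1 hv
    exact hx i
  have hlt := fun i => gap_lt hm hl hu hh.pos hb i
  have hNm : Nm u (gap θ) := by
    refine ⟨fun i => Complex.norm_exp_ofReal_mul_I _, ?_, gap_pos hm hl hu, hlt, gap_sum⟩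
    intro i
    simp only [hu_def]
    rw [← Complex.exp_add]
    unfold gap
    by_cases hi : (i : ℕ) + 1 < k + 1
    · rw [if_pos hi]
      congr 1
      push_cast
      ring
    · rw [if_neg hi]
      have : (θ i : ℂ) * I + ((θ (i + 1) - θ i + 2 * Real.pi : ℝ) : ℂ) * I
          = θ (i + 1) * I + 2 * Real.pi * I := by
        push_cast
        ring
      rw [this, Complex.exp_add, Complex.exp_two_pi_mul_I, mul_one]
  have hk3 : 3 ≤ k + 1 := by
    by_contra hc
    push Not at hc
    have h1 : ∑ i, gap θ i < ∑ i : Fin (k + 1), Real.pi :=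
      Finset.sum_lt_sum_of_nonempty Finset.univ_nonempty fun i _ => hlt i
    rw [gap_sum] at h1
    simp only [Finset.sum_const, Finset.card_univ, Fintype.card_fin, nsmul_eq_mul] at h1
    have h2 : ((k + 1 : ℕ) : ℝ) ≤ 2 := by exact_mod_cast (by omega : k + 1 ≤ 2)
    nlinarith [Real.pi_pos]
  obtain ⟨m, rfl⟩ : ∃ m, k = m + 2 := ⟨k - 2, by omega⟩
  refine ⟨⟨m, u, gap θ, ⟨hNm, fun i => side_pos hNm hh (fun j => hN _ (huN j).1) i⟩,
    fun i => hN _ (huN i).1, ?_⟩, hmem⟩
  intro i j hij
  show Complex.arg (u i) < Complex.arg (u j)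
  rw [(huN i).2, (huN j).2]
  exact hm hij

end Pool.Agent.GB.H11
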